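import Pool.Agent.helper27.Probe.Main

/-!
# Blow-up of the indicator sequence of the probe method without a smallness condition

All notions are defined in `Pool/Agent/helper27/Probe/Defs.lean`.
-/

set_option autoImplicit false

namespace Pool.Agent.Results.MP_a3c92e_an.ProbeBlowUp

open Pool.Agent.helper27.Probe Set Filter

/-- Let `Ω`, `D` be as in the problem, `k > 0` with `k²` not an eigenvalue of the mixed problem,
`G` a solution of the Helmholtz equation off `0` with gradient not square integrable on any finite
cone with vertex `0`, `σ` a needle ending at `x ∈ Ω` such that `x ∈ closure D` or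
`x ∉ closure D` and `σ` meets `D`, and `v n` (with weak gradients `g n`) a needle sequence for
`(x, σ)`. Then for every `n` the mixed problem with outer boundary values `v n` has a solution,
and for all such solutions `u n` the indicator sequence is real and tends to `+∞`. -/
theorem result {k : ℝ} {Ω D : Set E} {G : E → ℂ} {x : E} {σ : ℝ → E} {v : ℕ → E → ℂ}
    {g : ℕ → Fin 3 → E → ℂ} (hG : Geometry Ω D) (hk : 0 < k) (hN : NotEigen k Ω D)
    (hS : Singular k G) (hx : x ∈ Ω) (hσ : Needle Ω x σ) (hs : NeedleSeq k Ω G x σ v g)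
    (hc : x ∈ closure D ∨ x ∉ closure D ∧ (σ '' Icc 0 1 ∩ D).Nonempty) :
    (∀ n, ∃ u h, MixedSol k Ω D (v n) (g n) u h) ∧
    ∀ (u : ℕ → E → ℂ) (h : ℕ → Fin 3 → E → ℂ),
      (∀ n, MixedSol k Ω D (v n) (g n) (u n) (h n)) →
      (∀ n, (indicator k Ω D (v n) (g n) (u n) (h n)).im = 0) ∧
      Tendsto (fun n => (indicator k Ω D (v n) (g n) (u n) (h n)).re) atTop atTop :=
  main hG hk hN hS hx hσ hs hc

end Pool.Agent.Results.MP_a3c92e_an.ProbeBlowUp
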